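import Pool.Agent.KTB.StmtsKD

/-! Squad KTB, row RMV. -/

set_option autoImplicit false

namespace Pool.Agent.KTB.H10RMV

open Finset
open scoped Classical
open Pool.Agent.KTB

theorem rmv (h1 : RayStmt) : RmvStmt := by
  intro ι T _ D S X t μ hV htX
  obtain ⟨p, f, hne, hR, hLL⟩ := hV
  have hXS : X ⊆ S := hR.1
  obtain ⟨-, ⟨s, hs1, -, ⟨ρ₀, hρ₀, hs0⟩, hs3⟩, -, -, hnul, -⟩ := h1 ι T D S X p f hR hne
  have hpt : 0 < p t := (hR.2.1 t htX).1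
  have ht : ∀ ρ ∈ D.R S, ρ t = p t * s ρ := fun ρ hρ => hs1 ρ hρ t htX
  have hsub : ∀ ρ, ρ ∈ D.R (S \ X) → ρ ∈ D.R S := by
    intro ρ hρ
    refine ⟨hρ.1, fun a ha => hρ.2 a fun hc => ha (mem_sdiff.1 hc).1⟩
  have e1 : ∀ ρ, ρ ∈ D.R (S \ X) ↔ ρ ∈ D.R S ∧ ρ t = 0 := by
    intro ρ
    constructor
    · intro hρ
      exact ⟨hsub ρ hρ, hρ.2 t fun hc => (mem_sdiff.1 hc).2 htX⟩
    · rintro ⟨hρ, h0⟩
      rw [hs3 ρ hρ]
      rw [ht ρ hρ] at h0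
      rcases mul_eq_zero.1 h0 with h | h
      · exact absurd h hpt.ne'
      · exact h
  have e0 : ρ₀ t ≠ 0 := by
    rw [ht ρ₀ hρ₀]
    exact mul_ne_zero hpt.ne' hs0
  have e2 : X ⊆ D.sg S t := by
    intro x hx
    have hpx : 0 < p x := (hR.2.1 x hx).1
    refine mem_filter.2 ⟨hXS hx, p x / p t, div_ne_zero hpx.ne' hpt.ne', ?_⟩
    intro ρ hρ
    rw [ht ρ hρ, hs1 ρ hρ x hx]
    field_simp
  refine ⟨e1, e2, mem_filter.2 ⟨hXS htX, ρ₀, hρ₀, e0⟩, ?_, hnul, ?_⟩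
  · ext a
    constructor
    · intro ha
      obtain ⟨haS, ρ, hρ, hρa⟩ := mem_filter.1 ha
      have hρt := (e1 ρ).1 hρ
      refine mem_sdiff.2 ⟨mem_filter.2 ⟨(mem_sdiff.1 haS).1, ρ, hsub ρ hρ, hρa⟩, ?_⟩
      intro hc
      obtain ⟨-, c, -, hc2⟩ := mem_filter.1 hc
      apply hρa
      rw [hc2 ρ (hsub ρ hρ), hρt.2, mul_zero]
    · intro ha
      obtain ⟨haN, hasg⟩ := mem_sdiff.1 ha
      obtain ⟨haS, ρ₁, hρ₁, hρ₁a⟩ := mem_filter.1 haN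
      have haX : a ∉ X := fun hc => hasg (e2 hc)
      refine mem_filter.2 ⟨mem_sdiff.2 ⟨haS, haX⟩, ?_⟩
      by_contra hcon
      push Not at hcon
      have key : ∀ ρ ∈ D.R S, ρ a = ρ₀ a / ρ₀ t * ρ t := by
        intro ρ hρ
        have hm : ρ - (ρ t / ρ₀ t) • ρ₀ ∈ D.R S :=
          (D.R S).sub_mem hρ ((D.R S).smul_mem _ hρ₀)
        have h0 : (ρ - (ρ t / ρ₀ t) • ρ₀) t = 0 := by
          simp only [Pi.sub_apply, Pi.smul_apply, smul_eq_mul]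
          field_simp
          ring
        have h2 := hcon _ ((e1 _).2 ⟨hm, h0⟩)
        simp only [Pi.sub_apply, Pi.smul_apply, smul_eq_mul] at h2
        have h3 : ρ a = ρ t / ρ₀ t * ρ₀ a := by linarith
        rw [h3]
        ring
      have h4 : ρ₀ a ≠ 0 := by
        intro h5
        apply hρ₁a
        rw [key ρ₁ hρ₁, h5, zero_div, zero_mul]
      exact hasg (mem_filter.2 ⟨haS, _, div_ne_zero h4 e0, key⟩)
  · rintro ⟨-, h2, h3⟩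
    exact ⟨hLL, h2, fun S' hS' => h3 S' (Relation.ReflTransGen.head ⟨X, ⟨p, f, hne, hR, hLL⟩, rfl⟩ hS')⟩

end Pool.Agent.KTB.H10RMV
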